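import Pool.Agent.H93.PG.Targets

/-!
Row TYP of the board pgs_modules: typical words.
-/

set_option autoImplicit false

open MeasureTheory Filter Topology Finset Pool.Agent.H93.PF Pool.Agent.H93.PG

namespace Pool.Agent.H50.PG

theorem polyexp (κ M : ℝ) (hκ : 0 < κ) :
    ∃ n1 : ℕ, ∀ n : ℕ, n1 ≤ n → M * ((n : ℝ) + 2) ^ 2 ≤ Real.exp (κ * n) := by
  obtain ⟨n0, hn0⟩ := exists_nat_gt (24 * |M| / κ ^ 3)
  refine ⟨n0 + 2, ?_⟩
  intro n hn
  have h1 : (n0 : ℝ) ≤ n := by exact_mod_cast (by omega : n0 ≤ n)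
  have h2 : (2 : ℝ) ≤ n := by exact_mod_cast (by omega : 2 ≤ n)
  have h3 : 24 * |M| ≤ κ ^ 3 * n := by
    rw [div_lt_iff₀ (by positivity)] at hn0
    nlinarith [pow_pos hκ 3]
  have h4 := Real.pow_div_factorial_le_exp (κ * n) (by positivity) 3
  refine le_trans ?_ h4
  have h5 : ((n : ℝ) + 2) ^ 2 ≤ 4 * (n : ℝ) ^ 2 := by nlinarith
  have h6 : M * ((n : ℝ) + 2) ^ 2 ≤ |M| * (4 * (n : ℝ) ^ 2) :=
    mul_le_mul (le_abs_self M) h5 (by positivity) (abs_nonneg M)
  have h7 : (κ * (n : ℝ)) ^ 3 / (Nat.factorial 3 : ℝ) = κ ^ 3 * n * ((n : ℝ) ^ 2) / 6 := by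
    have : (Nat.factorial 3 : ℝ) = 6 := by norm_num [Nat.factorial]
    rw [this]
    ring
  rw [h7]
  have h8 := mul_le_mul_of_nonneg_right h3 (by positivity : (0 : ℝ) ≤ (n : ℝ) ^ 2)
  linarith

theorem gd_sub {A : Type} {m : ℕ → ℕ} {n k i : ℕ} (h : i + k ≤ n) (w : Fin n → A)
    (hw : Gd m w) : Gd m (fun x : Fin k => w ⟨i + (x : ℕ), by omega⟩) := by
  intro q j hq hj hP
  refine hw q (i + j) hq (by omega) ?_
  intro x hx h1 h2
  have h3 := hP (x - i) (by omega) (by omega) (by omega)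
  have e1 : (⟨x + q, hx⟩ : Fin n) = ⟨i + (x - i + q), by omega⟩ := Fin.ext (by simp only []; omega)
  have e2 : (⟨x, by omega⟩ : Fin n) = ⟨i + (x - i), by omega⟩ := Fin.ext (by simp only []; omega)
  rw [e1, e2]
  exact h3

theorem spl2 (hSPL : T_SPL) (d : ℕ) (m : ℕ → ℕ) (n i K k : ℕ) (hn : n = i + K + k)
    (S : Finset (Fin K → Fin d)) :
    ((FF d m n).filter fun w => (fun x : Fin K => w ⟨i + (x : ℕ), by omega⟩) ∈ S).card ≤
      (FF d m i).card * S.card * (FF d m k).card := by
  subst hn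
  exact hSPL d m i K k S

section

variable {d : ℕ} {m : ℕ → ℕ} (t : Tail d m)

open Classical in
/-- the factors of length `K` of the tail, and the reversed ones -/
noncomputable def SK (K : ℕ) : Finset (Fin K → Fin d) :=
  (Set.toFinite (Set.range fun (i : ℕ) (j : Fin K) => t.rt (i + (j : ℕ)))).toFinset ∪
    ((Set.toFinite (Set.range fun (i : ℕ) (j : Fin K) => t.rt (i + (j : ℕ)))).toFinset).image
      (fun u => u ∘ Fin.rev)

theorem card_SK (K : ℕ) (hK : 0 < K) : (SK t K).card ≤ 16 * (K + 1) := by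
  classical
  unfold SK
  refine (Finset.card_union_le _ _).trans ?_
  have h1 : ((Set.toFinite (Set.range fun (i : ℕ) (j : Fin K) =>
      t.rt (i + (j : ℕ)))).toFinset).card ≤ 8 * (K + 1) := by
    rw [← Set.ncard_eq_toFinset_card]
    exact t.cp K hK
  have h2 := Finset.card_image_le
    (s := (Set.toFinite (Set.range fun (i : ℕ) (j : Fin K) => t.rt (i + (j : ℕ)))).toFinset)
    (f := fun u : Fin K → Fin d => u ∘ Fin.rev)
  omega

open Classical in
theorem bad1 (hSPL : T_SPL) (K n : ℕ) (hK : 0 < K) (C E : ℝ)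
    (hC : ∀ n : ℕ, ((FF d m n).card : ℝ) ≤ C * Real.exp (E * n)) (hE : 0 ≤ E) (hC1 : 1 ≤ C) :
    ((((FF d m n).filter fun w => ¬ T1 t K w).card : ℕ) : ℝ) ≤
      ((n : ℝ) + 1) * (16 * ((K : ℝ) + 1) * C ^ 2 * Real.exp (E * ((n : ℝ) - K))) := by
  set B : ℕ → Finset (Fin n → Fin d) := fun i => (FF d m n).filter fun w =>
    ∃ h : i + K ≤ n, (fun x : Fin K => w ⟨i + (x : ℕ), by omega⟩) ∈ SK t K with hB
  have hsub : ((FF d m n).filter fun w => ¬ T1 t K w) ⊆ (Finset.range (n + 1)).biUnion B := by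
    intro w hw
    rw [Finset.mem_filter] at hw
    obtain ⟨hw1, hw2⟩ := hw
    unfold T1 at hw2
    push Not at hw2
    obtain ⟨i, j, hij, h⟩ := hw2
    rw [Finset.mem_biUnion]
    refine ⟨i, Finset.mem_range.2 (by omega), ?_⟩
    rw [hB]
    simp only [Finset.mem_filter]
    refine ⟨hw1, hij, ?_⟩
    unfold SK
    rw [Finset.mem_union, Set.Finite.mem_toFinset]
    by_cases hc : ∀ (x : ℕ) (h : i + x < n), x < K → w ⟨i + x, h⟩ = t.rt (j + x)
    · left
      refine ⟨j, ?_⟩
      funext x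
      exact (hc x (by omega) x.2).symm
    · right
      have h' := h (by push Not at hc; exact hc)
      rw [Finset.mem_image]
      refine ⟨fun x : Fin K => t.rt (j + (x : ℕ)), ?_, ?_⟩
      · rw [Set.Finite.mem_toFinset]
        exact ⟨j, rfl⟩
      · funext x
        rw [Function.comp_apply, h' x (by omega) x.2, Fin.val_rev]
        have : K - ((x : ℕ) + 1) = K - 1 - (x : ℕ) := by omega
        rw [this]
  have hbd : ∀ i ∈ Finset.range (n + 1), ((B i).card : ℝ) ≤
      16 * ((K : ℝ) + 1) * C ^ 2 * Real.exp (E * ((n : ℝ) - K)) := by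
    intro i _
    by_cases hi : i + K ≤ n
    · have h1 : (B i).card ≤ (FF d m i).card * (SK t K).card * (FF d m (n - (i + K))).card := by
        refine le_trans (Finset.card_le_card ?_) (spl2 hSPL d m n i K (n - (i + K)) (by omega)
          (SK t K))
        intro w hw
        rw [hB] at hw
        simp only [Finset.mem_filter] at hw ⊢
        obtain ⟨hw1, _, hw2⟩ := hw
        exact ⟨hw1, hw2⟩
      have h2 : ((B i).card : ℝ) ≤ ((FF d m i).card : ℝ) * (SK t K).card *
          (FF d m (n - (i + K))).card := by exact_mod_cast h1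
      have h3 : ((SK t K).card : ℝ) ≤ 16 * ((K : ℝ) + 1) := by
        have := card_SK t K hK
        exact_mod_cast this
      have h4 := hC i
      have h5 := hC (n - (i + K))
      have h6 : ((FF d m i).card : ℝ) * (SK t K).card * (FF d m (n - (i + K))).card ≤
          (C * Real.exp (E * i)) * (16 * ((K : ℝ) + 1)) *
            (C * Real.exp (E * ((n - (i + K) : ℕ) : ℝ))) := by
        refine mul_le_mul (mul_le_mul h4 h3 (by positivity) (by positivity)) h5 (by positivity)
          (by positivity)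
      refine h2.trans (h6.trans (le_of_eq ?_))
      have h7 : Real.exp (E * ((n : ℝ) - K)) = Real.exp (E * i) *
          Real.exp (E * ((n - (i + K) : ℕ) : ℝ)) := by
        rw [← Real.exp_add, Nat.cast_sub hi]
        push_cast
        ring_nf
      rw [h7]
      ring
    · have : B i = ∅ := by
        rw [hB]
        simp only [Finset.filter_eq_empty_iff]
        rintro w _ ⟨h, -⟩
        exact hi h
      rw [this, Finset.card_empty, Nat.cast_zero]
      positivity
  calc ((((FF d m n).filter fun w => ¬ T1 t K w).card : ℕ) : ℝ)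
      ≤ ((∑ i ∈ Finset.range (n + 1), (B i).card : ℕ) : ℝ) := by
        exact_mod_cast (Finset.card_le_card hsub).trans Finset.card_biUnion_le
    _ = ∑ i ∈ Finset.range (n + 1), ((B i).card : ℝ) := by push_cast; rfl
    _ ≤ ∑ _i ∈ Finset.range (n + 1), 16 * ((K : ℝ) + 1) * C ^ 2 *
        Real.exp (E * ((n : ℝ) - K)) := Finset.sum_le_sum hbd
    _ = _ := by
        rw [Finset.sum_const, Finset.card_range, nsmul_eq_mul]
        push_cast
        ring

open Classical in
theorem per_inj {A : Type} (n q : ℕ) (hqn : q ≤ n) (w w' : Fin n → A) (hq : 0 < q)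
    (hw : Per w q 0 n) (hw' : Per w' q 0 n)
    (h : ∀ x : Fin q, w ⟨0 + (x : ℕ), by omega⟩ = w' ⟨0 + (x : ℕ), by omega⟩) : w = w' := by
  have key : ∀ (x : ℕ) (hx : x < n), w ⟨x, hx⟩ = w' ⟨x, hx⟩ := by
    intro x
    induction x using Nat.strong_induction_on with
    | _ x ih =>
      intro hx
      by_cases hxq : x < q
      · have h1 := h ⟨x, hxq⟩
        have e1 : (⟨0 + ((⟨x, hxq⟩ : Fin q) : ℕ), by simp only []; omega⟩ : Fin n) = ⟨x, hx⟩ :=
          Fin.ext (by simp only []; omega)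
        rw [e1] at h1
        exact h1
      · have h1 := hw (x - q) (by omega) (by omega) (by omega)
        have h2 := hw' (x - q) (by omega) (by omega) (by omega)
        have e1 : (⟨x - q + q, by omega⟩ : Fin n) = ⟨x, hx⟩ := Fin.ext (by simp only []; omega)
        rw [e1] at h1 h2
        rw [h1, h2]
        exact ih (x - q) (by omega) (by omega)
  funext x
  exact key x x.2

open Classical in
theorem bad2 (n : ℕ) (C E : ℝ)
    (hC : ∀ n : ℕ, ((FF d m n).card : ℝ) ≤ C * Real.exp (E * n)) (hE : 0 ≤ E) (hC1 : 1 ≤ C) :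
    ((((FF d m n).filter fun w => ¬ T2 w).card : ℕ) : ℝ) ≤
      ((n : ℝ) + 1) * (C * Real.exp (E * (5 / 8 * n))) := by
  set B : ℕ → Finset (Fin n → Fin d) := fun q => (FF d m n).filter fun w =>
    0 < q ∧ 8 * q ≤ 5 * n ∧ Per w q 0 n with hB
  have hsub : ((FF d m n).filter fun w => ¬ T2 w) ⊆ (Finset.range (n + 1)).biUnion B := by
    intro w hw
    rw [Finset.mem_filter] at hw
    obtain ⟨hw1, hw2⟩ := hw
    unfold T2 at hw2
    push Not at hw2
    obtain ⟨q, hq1, hq2, hq3⟩ := hw2
    rw [Finset.mem_biUnion]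
    refine ⟨q, Finset.mem_range.2 (by omega), ?_⟩
    rw [hB]
    simp only [Finset.mem_filter]
    exact ⟨hw1, hq1, hq2, hq3⟩
  have hbd : ∀ q ∈ Finset.range (n + 1), ((B q).card : ℝ) ≤
      C * Real.exp (E * (5 / 8 * n)) := by
    intro q _
    by_cases hq : 0 < q ∧ 8 * q ≤ 5 * n
    · have h1 : (B q).card ≤ (FF d m q).card := by
        refine Finset.card_le_card_of_injOn
          (fun w => fun x : Fin q => w ⟨0 + (x : ℕ), by omega⟩) ?_ ?_
        · intro w hw
          rw [Finset.mem_coe, hB] at hw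
          simp only [Finset.mem_filter] at hw
          have hw1 := hw.1
          unfold FF at hw1
          rw [Finset.mem_filter] at hw1
          rw [Finset.mem_coe]
          unfold FF
          rw [Finset.mem_filter]
          exact ⟨Finset.mem_univ _, gd_sub (i := 0) (by omega) w hw1.2⟩
        · intro w hw w' hw' hww
          rw [Finset.mem_coe, hB] at hw hw'
          simp only [Finset.mem_filter] at hw hw'
          refine per_inj n q (by omega) w w' hq.1 hw.2.2.2 hw'.2.2.2 ?_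
          intro x
          exact congrFun hww x
      have h2 : ((B q).card : ℝ) ≤ ((FF d m q).card : ℝ) := by exact_mod_cast h1
      refine h2.trans ((hC q).trans ?_)
      refine mul_le_mul_of_nonneg_left (Real.exp_le_exp.2 ?_) (by linarith)
      refine mul_le_mul_of_nonneg_left ?_ hE
      have : (8 : ℝ) * q ≤ 5 * n := by exact_mod_cast hq.2
      linarith
    · have : B q = ∅ := by
        rw [hB]
        simp only [Finset.filter_eq_empty_iff]
        rintro w _ ⟨h1, h2, -⟩
        exact hq ⟨h1, h2⟩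
      rw [this, Finset.card_empty, Nat.cast_zero]
      positivity
  calc ((((FF d m n).filter fun w => ¬ T2 w).card : ℕ) : ℝ)
      ≤ ((∑ i ∈ Finset.range (n + 1), (B i).card : ℕ) : ℝ) := by
        exact_mod_cast (Finset.card_le_card hsub).trans Finset.card_biUnion_le
    _ = ∑ i ∈ Finset.range (n + 1), ((B i).card : ℝ) := by push_cast; rfl
    _ ≤ ∑ _i ∈ Finset.range (n + 1), C * Real.exp (E * (5 / 8 * n)) := Finset.sum_le_sum hbd
    _ = _ := by
        rw [Finset.sum_const, Finset.card_range, nsmul_eq_mul]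
        push_cast
        ring

end

/-- the bound which defines `Rich` holds for arbitrarily large `n` -/
theorem rich_large {H : ℝ} {u : ℕ → ℕ} (h : Rich H u) (ε : ℝ) (hε : 0 < ε) (C : ℝ) (n0 : ℕ) :
    ∃ n : ℕ, n0 ≤ n ∧ C * Real.exp ((H - ε) * n) < (u n : ℝ) := by
  set D : ℝ := |C| + ∑ n ∈ Finset.range n0, (u n : ℝ) * Real.exp (-((H - ε) * n)) with hD
  have hs : 0 ≤ ∑ n ∈ Finset.range n0, (u n : ℝ) * Real.exp (-((H - ε) * n)) :=
    Finset.sum_nonneg fun n _ => by positivity
  obtain ⟨n, hn⟩ := h ε hε D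
  refine ⟨n, ?_, ?_⟩
  · by_contra hlt
    push Not at hlt
    have h1 : (u n : ℝ) * Real.exp (-((H - ε) * n)) ≤ D := by
      have h2 := Finset.single_le_sum (f := fun n : ℕ => (u n : ℝ) * Real.exp (-((H - ε) * n)))
        (fun i _ => by positivity) (Finset.mem_range.2 hlt)
      have := abs_nonneg C
      linarith
    have h3 := mul_le_mul_of_nonneg_right h1 (Real.exp_pos ((H - ε) * n)).le
    rw [mul_assoc, ← Real.exp_add, neg_add_cancel, Real.exp_zero, mul_one] at h3
    linarith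
  · refine lt_of_le_of_lt (mul_le_mul_of_nonneg_right ?_ (Real.exp_pos _).le) hn
    have := le_abs_self C
    linarith

theorem pf_TYP (hSPL : T_SPL) : T_TYP := by
  intro d m t H hGr hH hRich η ε n₀ hη hη1 hε
  classical
  set κ : ℝ := η * H / 2 with hκ
  have hκ0 : 0 < κ := by positivity
  set δ : ℝ := min ε (η * H / 4) with hδ
  have hδ0 : 0 < δ := lt_min hε (by positivity)
  have hδ1 : δ ≤ ε := min_le_left _ _
  have hδ2 : δ ≤ η * H / 4 := min_le_right _ _
  obtain ⟨C, hC⟩ := hGr.upp δ hδ0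
  have hC1 : 1 ≤ C := by
    have h1 := hGr.low 0
    have h2 := hC 0
    simp only [Nat.cast_zero, mul_zero, Real.exp_zero, mul_one] at h1 h2
    linarith
  obtain ⟨n1, hn1⟩ := polyexp κ (64 * C ^ 2) hκ0
  obtain ⟨n, hn, hPP⟩ := rich_large hRich δ hδ0 2 (n₀ + n1 + 1)
  refine ⟨n, by omega, ?_⟩
  set K : ℕ := ⌈η * n⌉₊ with hK
  have hn0 : (1 : ℝ) ≤ n := by exact_mod_cast (by omega : 1 ≤ n)
  have hK0 : 0 < K := Nat.ceil_pos.2 (by positivity)
  have hKlo : η * n ≤ K := Nat.le_ceil _
  have hKhi : (K : ℝ) ≤ n + 1 := by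
    have h1 := (Nat.ceil_lt_add_one (show 0 ≤ η * (n : ℝ) by positivity)).le
    nlinarith
  have hE : 0 ≤ H + δ := by linarith
  have b1 := bad1 t hSPL K n hK0 C (H + δ) hC hE hC1
  have b2 := bad2 (m := m) (d := d) n C (H + δ) hC hE hC1
  have hp := hn1 n (by omega)
  have hexp1 : Real.exp ((H + δ) * ((n : ℝ) - K)) ≤ Real.exp (-(κ * n)) *
      Real.exp ((H - δ) * n) := by
    rw [← Real.exp_add]
    apply Real.exp_le_exp.2
    have h1 : (H + δ) * (η * n) ≤ (H + δ) * K := mul_le_mul_of_nonneg_left hKlo hE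
    have h2 : 2 * δ * n ≤ 2 * (η * H / 4) * n := by nlinarith
    have h3 : 0 ≤ δ * (η * n) := by positivity
    have h4 : κ * n = 2 * (η * H / 4) * n := by rw [hκ]; ring
    nlinarith
  have hexp2 : Real.exp ((H + δ) * (5 / 8 * n)) ≤ Real.exp (-(κ * n)) *
      Real.exp ((H - δ) * n) := by
    rw [← Real.exp_add]
    apply Real.exp_le_exp.2
    have h1 : η * H ≤ 1 / 10 * H := mul_le_mul_of_nonneg_right hη1 hH.le
    have h2 : 0 ≤ (3 / 8 * H - 13 / 8 * δ - κ) * n := by
      refine mul_nonneg ?_ (by linarith)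
      rw [hκ]
      linarith
    nlinarith
  have hx : 0 < Real.exp ((H - δ) * n) := Real.exp_pos _
  have hq : (64 * C ^ 2 * ((n : ℝ) + 2) ^ 2) * Real.exp (-(κ * n)) ≤ 1 := by
    have h1 := mul_le_mul_of_nonneg_right hp (Real.exp_pos (-(κ * n))).le
    rw [← Real.exp_add, add_neg_cancel, Real.exp_zero] at h1
    exact h1
  have c1 : ((((FF d m n).filter fun w => ¬ T1 t K w).card : ℕ) : ℝ) ≤
      1 / 4 * Real.exp ((H - δ) * n) := by
    refine b1.trans ?_
    have h1 : ((n : ℝ) + 1) * (16 * ((K : ℝ) + 1) * C ^ 2 * Real.exp ((H + δ) * ((n : ℝ) - K))) ≤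
        ((n : ℝ) + 2) * (16 * ((n : ℝ) + 2) * C ^ 2 * (Real.exp (-(κ * n)) *
          Real.exp ((H - δ) * n))) := by
      refine mul_le_mul (by linarith) (mul_le_mul ?_ hexp1 (Real.exp_pos _).le (by positivity))
        (by positivity) (by positivity)
      refine mul_le_mul_of_nonneg_right ?_ (by positivity)
      linarith
    refine h1.trans ?_
    have h2 : ((n : ℝ) + 2) * (16 * ((n : ℝ) + 2) * C ^ 2 * (Real.exp (-(κ * n)) *
          Real.exp ((H - δ) * n))) = 1 / 4 * (((64 * C ^ 2 * ((n : ℝ) + 2) ^ 2) *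
          Real.exp (-(κ * n))) * Real.exp ((H - δ) * n)) := by ring
    rw [h2]
    refine mul_le_mul_of_nonneg_left ?_ (by norm_num)
    exact mul_le_of_le_one_left hx.le hq
  have c2 : ((((FF d m n).filter fun w => ¬ T2 w).card : ℕ) : ℝ) ≤
      1 / 4 * Real.exp ((H - δ) * n) := by
    refine b2.trans ?_
    have h1 : ((n : ℝ) + 1) * (C * Real.exp ((H + δ) * (5 / 8 * n))) ≤
        ((n : ℝ) + 2) * ((16 * ((n : ℝ) + 2) * C ^ 2) * (Real.exp (-(κ * n)) *
          Real.exp ((H - δ) * n))) := by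
      refine mul_le_mul (by linarith) (mul_le_mul ?_ hexp2 (Real.exp_pos _).le (by positivity))
        (by positivity) (by positivity)
      have h3 : C ≤ C ^ 2 := by nlinarith
      have h4 : (1 : ℝ) ≤ 16 * ((n : ℝ) + 2) := by linarith
      have h5 : 0 ≤ C ^ 2 := sq_nonneg C
      nlinarith
    refine h1.trans ?_
    have h2 : ((n : ℝ) + 2) * ((16 * ((n : ℝ) + 2) * C ^ 2) * (Real.exp (-(κ * n)) *
          Real.exp ((H - δ) * n))) = 1 / 4 * (((64 * C ^ 2 * ((n : ℝ) + 2) ^ 2) *
          Real.exp (-(κ * n))) * Real.exp ((H - δ) * n)) := by ring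
    rw [h2]
    refine mul_le_mul_of_nonneg_left ?_ (by norm_num)
    exact mul_le_of_le_one_left hx.le hq
  have hsub : PP t n ⊆ VV t K n ∪ (((FF d m n).filter fun w => ¬ T1 t K w) ∪
      ((FF d m n).filter fun w => ¬ T2 w)) := by
    intro w hw
    unfold PP at hw
    rw [Finset.mem_filter] at hw
    obtain ⟨-, h1, h2, h3, h4, h5⟩ := hw
    have hF : w ∈ FF d m n := by
      unfold FF
      exact Finset.mem_filter.2 ⟨Finset.mem_univ _, h1⟩
    by_cases g1 : T1 t K w
    · by_cases g2 : T2 w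
      · refine Finset.mem_union_left _ ?_
        unfold VV
        exact Finset.mem_filter.2 ⟨Finset.mem_univ _, h1, h2, h3, h4, h5, g1, g2⟩
      · exact Finset.mem_union_right _ (Finset.mem_union_right _
          (Finset.mem_filter.2 ⟨hF, g2⟩))
    · exact Finset.mem_union_right _ (Finset.mem_union_left _
        (Finset.mem_filter.2 ⟨hF, g1⟩))
  have hcard : ((PP t n).card : ℝ) ≤ ((VV t K n).card : ℝ) +
      (((((FF d m n).filter fun w => ¬ T1 t K w).card : ℕ) : ℝ) +
      ((((FF d m n).filter fun w => ¬ T2 w).card : ℕ) : ℝ)) := by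
    have := (Finset.card_le_card hsub).trans ((Finset.card_union_le _ _).trans
      (Nat.add_le_add_left (Finset.card_union_le _ _) _))
    exact_mod_cast this
  have hfin : Real.exp ((H - ε) * n) ≤ Real.exp ((H - δ) * n) := by
    apply Real.exp_le_exp.2
    nlinarith
  linarith

end Pool.Agent.H50.PG
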