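import Pool.Agent.H50.PG.GRO
import Pool.Agent.H50.PG.TYP

/-!
Row COL of the board pgs_modules: the colour classes.
-/

set_option autoImplicit false

open MeasureTheory Filter Topology Finset Pool.Agent.H93.PF Pool.Agent.H93.PG

namespace Pool.Agent.H50.PG

section words

variable {A : Type} {n K : ℕ}

/-- the first `K` letters -/
def pre (h : 2 * K ≤ n) (w : Fin n → A) : Fin K → A := fun x => w ⟨0 + (x : ℕ), by omega⟩

/-- the last `K` letters -/
def suf (h : 2 * K ≤ n) (w : Fin n → A) : Fin K → A := fun x => w ⟨n - K + (x : ℕ), by omega⟩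

/-- the letters between them -/
def mid (h : 2 * K ≤ n) (w : Fin n → A) : Fin (n - 2 * K) → A :=
  fun x => w ⟨K + (x : ℕ), by omega⟩

theorem pms (h : 2 * K ≤ n) (w w' : Fin n → A) (h1 : pre h w = pre h w') (h2 : suf h w = suf h w')
    (h3 : mid h w = mid h w') : w = w' := by
  funext x
  obtain ⟨x, hx⟩ := x
  by_cases c1 : x < K
  · have e := congrFun h1 ⟨x, c1⟩
    unfold pre at e
    have e1 : (⟨0 + ((⟨x, c1⟩ : Fin K) : ℕ), by simp only []; omega⟩ : Fin n) = ⟨x, hx⟩ :=
      Fin.ext (by simp only []; omega)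
    rw [e1] at e
    exact e
  · by_cases c2 : x < n - K
    · have c3 : x - K < n - 2 * K := by omega
      have e := congrFun h3 ⟨x - K, c3⟩
      unfold mid at e
      have e1 : (⟨K + ((⟨x - K, c3⟩ : Fin (n - 2 * K)) : ℕ), by simp only []; omega⟩ : Fin n) =
          ⟨x, hx⟩ := Fin.ext (by simp only []; omega)
      rw [e1] at e
      exact e
    · have c3 : x - (n - K) < K := by omega
      have e := congrFun h2 ⟨x - (n - K), c3⟩
      unfold suf at e
      have e1 : (⟨n - K + ((⟨x - (n - K), c3⟩ : Fin K) : ℕ), by simp only []; omega⟩ : Fin n) =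
          ⟨x, hx⟩ := Fin.ext (by simp only []; omega)
      rw [e1] at e
      exact e

end words

theorem mem_FF {d : ℕ} {m : ℕ → ℕ} {n : ℕ} {w : Fin n → Fin d} : w ∈ FF d m n ↔ Gd m w := by
  classical
  unfold FF
  rw [Finset.mem_filter]
  exact ⟨fun h => h.2, fun h => ⟨Finset.mem_univ _, h⟩⟩

open Classical in
/-- the counting argument -/
theorem count {d : ℕ} {m : ℕ → ℕ} {n K : ℕ} (h2K : 2 * K ≤ n) (W : Finset (Fin n → Fin d))
    (hW : ∀ w ∈ W, Gd m w) (Q : ℕ) :
    W.card ≤ (((FF d m K ×ˢ FF d m K).filter fun p =>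
      Q ≤ (W.filter fun w => (pre h2K w, suf h2K w) = p).card).card) * (FF d m (n - 2 * K)).card +
      (FF d m K).card * (FF d m K).card * Q := by
  have h1 : W.card = ∑ p ∈ FF d m K ×ˢ FF d m K,
      (W.filter fun w => (pre h2K w, suf h2K w) = p).card := by
    refine Finset.card_eq_sum_card_fiberwise ?_
    intro w hw
    rw [Finset.mem_coe] at hw
    rw [Finset.mem_coe, Finset.mem_product, mem_FF, mem_FF]
    exact ⟨gd_sub (i := 0) (by omega) w (hW w hw), gd_sub (i := n - K) (by omega) w (hW w hw)⟩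
  have h2 : ∀ p : (Fin K → Fin d) × (Fin K → Fin d),
      (W.filter fun w => (pre h2K w, suf h2K w) = p).card ≤ (FF d m (n - 2 * K)).card := by
    intro p
    refine Finset.card_le_card_of_injOn (fun w => mid h2K w) ?_ ?_
    · intro w hw
      rw [Finset.mem_coe, Finset.mem_filter] at hw
      rw [Finset.mem_coe, mem_FF]
      exact gd_sub (i := K) (by omega) w (hW w hw.1)
    · intro w hw w' hw' hww
      rw [Finset.mem_coe, Finset.mem_filter] at hw hw'
      have e := hw.2.trans hw'.2.symm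
      exact pms h2K w w' (congrArg Prod.fst e) (congrArg Prod.snd e) hww
  rw [h1, ← Finset.sum_filter_add_sum_filter_not (FF d m K ×ˢ FF d m K) (fun p =>
    Q ≤ (W.filter fun w => (pre h2K w, suf h2K w) = p).card)]
  refine Nat.add_le_add ?_ ?_
  · refine (Finset.sum_le_card_nsmul _ _ _ (fun p _ => h2 p)).trans ?_
    rw [smul_eq_mul]
  · refine (Finset.sum_le_card_nsmul _ _ Q (fun p hp => ?_)).trans ?_
    · rw [Finset.mem_filter] at hp
      exact (not_le.1 hp.2).le
    · rw [smul_eq_mul]
      refine Nat.mul_le_mul_right _ ((Finset.card_filter_le _ _).trans ?_)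
      rw [Finset.card_product]

theorem expbig (κ M : ℝ) (hκ : 0 < κ) : ∃ n1 : ℕ, ∀ n : ℕ, n1 ≤ n → M ≤ Real.exp (κ * n) := by
  obtain ⟨n1, h⟩ := polyexp κ |M| hκ
  refine ⟨n1, fun n hn => le_trans ?_ (h n hn)⟩
  have h1 : (0 : ℝ) ≤ n := Nat.cast_nonneg n
  have h2 : (1 : ℝ) ≤ ((n : ℝ) + 2) ^ 2 := by nlinarith
  have h3 := le_abs_self M
  have h4 := abs_nonneg M
  nlinarith

theorem pf_COL (hSPL : T_SPL) : T_COL := by
  intro d m t H hGr hH hT h' hh'
  classical
  have _ := hSPL
  set h0 : ℝ := max h' 0 with hh0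
  have h00 : 0 ≤ h0 := le_max_right _ _
  have h01 : h' ≤ h0 := le_max_left _ _
  set Δ : ℝ := H - h0 with hΔ
  have hΔ0 : 0 < Δ := by
    rw [hΔ, hh0]
    rcases le_total h' 0 with h | h
    · rw [max_eq_right h]; linarith
    · rw [max_eq_left h]; linarith
  refine ⟨min (1 / 10) (Δ / (4 * H)), lt_min (by norm_num) (by positivity), min_le_left _ _, ?_⟩
  intro η hη hη0 N n₀
  have hη1 : η ≤ 1 / 10 := hη0.trans (min_le_left _ _)
  have hη2 : η * H ≤ Δ / 4 := by
    have h1 := hη0.trans (min_le_right _ _)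
    rw [le_div_iff₀ (by positivity)] at h1
    linarith
  set δ : ℝ := η * H / 4 with hδ
  have hδ0 : 0 < δ := by positivity
  set E : ℝ := H + δ with hE
  have hE0 : 0 < E := by positivity
  obtain ⟨C, hC⟩ := hGr.upp δ hδ0
  have hC1 : 1 ≤ C := by
    have h1 := hGr.low 0
    have h2 := hC 0
    simp only [Nat.cast_zero, mul_zero, Real.exp_zero, mul_one] at h1 h2
    linarith
  obtain ⟨n1, hn1⟩ := expbig (2 / 5 * Δ) (8 * C ^ 2 * Real.exp (2 * E)) (by positivity)
  obtain ⟨n2, hn2⟩ := expbig (η * H / 2) (4 * ((N : ℝ) + 1) * C ^ 2) (by positivity)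
  obtain ⟨n, hn, hcard⟩ := hT η δ (n₀ + n1 + n2 + 3) hη hη1 hδ0
  refine ⟨n, by omega, ?_⟩
  set K : ℕ := ⌈η * n⌉₊ with hK
  have hnR : (3 : ℝ) ≤ n := by exact_mod_cast (by omega : 3 ≤ n)
  have hKlo : η * n ≤ K := Nat.le_ceil _
  have hKhi : (K : ℝ) ≤ η * n + 1 := (Nat.ceil_lt_add_one (by positivity)).le
  have h2K : 2 * K ≤ n := by
    have h1 : (2 : ℝ) * K ≤ n := by nlinarith
    exact_mod_cast h1
  set W : Finset (Fin n → Fin d) := VV t K n with hW
  have hWG : ∀ w ∈ W, Gd m w := by
    intro w hw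
    rw [hW] at hw
    unfold VV at hw
    exact (Finset.mem_filter.1 hw).2.1
  set Q : ℕ := ⌈Real.exp (h' * n)⌉₊ with hQ
  have hQ1 : 0 < Q := Nat.ceil_pos.2 (Real.exp_pos _)
  have hQ2 : (Q : ℝ) ≤ 2 * Real.exp (h0 * n) := by
    have h1 := (Nat.ceil_lt_add_one (Real.exp_pos (h' * n)).le).le
    have h2 : Real.exp (h' * n) ≤ Real.exp (h0 * n) := Real.exp_le_exp.2 (by nlinarith)
    have h3 : 1 ≤ Real.exp (h0 * n) := Real.one_le_exp (by positivity)
    linarith
  set V : (Fin K → Fin d) × (Fin K → Fin d) → Finset (Fin n → Fin d) := fun p =>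
    W.filter fun w => (pre h2K w, suf h2K w) = p with hV
  set S : Finset ((Fin K → Fin d) × (Fin K → Fin d)) :=
    (FF d m K ×ˢ FF d m K).filter fun p => Q ≤ (V p).card with hS
  have hcount : W.card ≤ S.card * (FF d m (n - 2 * K)).card +
      (FF d m K).card * (FF d m K).card * Q := count h2K W hWG Q
  have hcountR : (W.card : ℝ) ≤ (S.card : ℝ) * (FF d m (n - 2 * K)).card +
      ((FF d m K).card : ℝ) * (FF d m K).card * Q := by exact_mod_cast hcount
  have haK := hC K
  have haM := hC (n - 2 * K)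
  have hlow := hGr.low K
  have haK1 : 1 ≤ ((FF d m K).card : ℝ) :=
    le_trans (Real.one_le_exp (by positivity)) hlow
  -- first estimate
  have f1 : ((FF d m K).card : ℝ) * (FF d m K).card * Q ≤ 1 / 2 * Real.exp ((H - δ) * n) := by
    have g1 : ((FF d m K).card : ℝ) ≤ C * Real.exp (E * (η * n + 1)) := by
      refine haK.trans (mul_le_mul_of_nonneg_left (Real.exp_le_exp.2 ?_) (by linarith))
      exact mul_le_mul_of_nonneg_left hKhi hE0.le
    have g2 : ((FF d m K).card : ℝ) * (FF d m K).card * Q ≤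
        (C * Real.exp (E * (η * n + 1))) * (C * Real.exp (E * (η * n + 1))) *
          (2 * Real.exp (h0 * n)) :=
      mul_le_mul (mul_le_mul g1 g1 (by positivity) (by positivity)) hQ2 (by positivity)
        (by positivity)
    refine g2.trans ?_
    have g3 : (C * Real.exp (E * (η * n + 1))) * (C * Real.exp (E * (η * n + 1))) *
          (2 * Real.exp (h0 * n)) = 1 / 4 * (8 * C ^ 2 * Real.exp (2 * E)) *
          Real.exp ((2 * E * η + h0) * n) := by
      have : Real.exp (E * (η * n + 1)) * Real.exp (E * (η * n + 1)) * Real.exp (h0 * n) =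
          Real.exp (2 * E) * Real.exp ((2 * E * η + h0) * n) := by
        rw [← Real.exp_add, ← Real.exp_add, ← Real.exp_add]
        ring_nf
      calc _ = 2 * C ^ 2 * (Real.exp (E * (η * n + 1)) * Real.exp (E * (η * n + 1)) *
          Real.exp (h0 * n)) := by ring
        _ = _ := by rw [this]; ring
    rw [g3]
    have g4 := hn1 n (by omega)
    have g5 : Real.exp (2 / 5 * Δ * n) * Real.exp ((2 * E * η + h0) * n) ≤
        Real.exp ((H - δ) * n) := by
      rw [← Real.exp_add]
      apply Real.exp_le_exp.2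
      rw [← add_mul]
      refine mul_le_mul_of_nonneg_right ?_ (by linarith)
      -- 2/5 Δ + 2 E η + h0 ≤ H - δ
      have k1 : E * η ≤ 41 / 40 * (η * H) := by
        rw [hE, hδ]
        nlinarith [mul_nonneg hη.le hH.le]
      rw [hδ]
      linarith
    have g6 := mul_le_mul_of_nonneg_right g4 (Real.exp_pos ((2 * E * η + h0) * n)).le
    linarith [Real.exp_pos ((H - δ) * n)]
  -- second estimate
  have f2 : 2 * (N + 1) * (FF d m K).card ≤ S.card := by
    by_contra hlt
    push Not at hlt
    have g1 : (S.card : ℝ) ≤ 2 * ((N : ℝ) + 1) * (FF d m K).card := by exact_mod_cast hlt.le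
    have g2 : (S.card : ℝ) * (FF d m (n - 2 * K)).card ≤
        (2 * ((N : ℝ) + 1) * (C * Real.exp (E * K))) *
          (C * Real.exp (E * ((n - 2 * K : ℕ) : ℝ))) := by
      refine mul_le_mul (g1.trans (mul_le_mul_of_nonneg_left haK (by positivity))) haM
        (by positivity) (by positivity)
    have g3 : (2 * ((N : ℝ) + 1) * (C * Real.exp (E * K))) *
          (C * Real.exp (E * ((n - 2 * K : ℕ) : ℝ))) =
        1 / 2 * (4 * ((N : ℝ) + 1) * C ^ 2) * Real.exp (E * ((n : ℝ) - K)) := by
      have : Real.exp (E * K) * Real.exp (E * ((n - 2 * K : ℕ) : ℝ)) =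
          Real.exp (E * ((n : ℝ) - K)) := by
        rw [← Real.exp_add, Nat.cast_sub h2K]
        push_cast
        ring_nf
      rw [← this]
      ring
    have g4 := hn2 n (by omega)
    have g5 : Real.exp (η * H / 2 * n) * Real.exp (E * ((n : ℝ) - K)) ≤
        Real.exp ((H - δ) * n) := by
      rw [← Real.exp_add]
      apply Real.exp_le_exp.2
      have k1 : E * (η * n) ≤ E * K := mul_le_mul_of_nonneg_left hKlo hE0.le
      have k2 : E * (η * n) = H * (η * n) + δ * (η * n) := by rw [hE]; ring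
      have k3 : 0 ≤ δ * (η * n) := by positivity
      have k4 : E * n = H * n + δ * n := by rw [hE]; ring
      have k5 : δ * n = 1 / 4 * (H * (η * n)) := by rw [hδ]; ring
      nlinarith
    have g6 := mul_le_mul_of_nonneg_right g4 (Real.exp_pos (E * ((n : ℝ) - K))).le
    -- strict inequality: S.card < ...
    have g7 : (S.card : ℝ) < 2 * ((N : ℝ) + 1) * (FF d m K).card := by exact_mod_cast hlt
    have g8 : 1 ≤ ((FF d m (n - 2 * K)).card : ℝ) :=
      le_trans (Real.one_le_exp (by positivity)) (hGr.low (n - 2 * K))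
    have g9 : (S.card : ℝ) * (FF d m (n - 2 * K)).card <
        (2 * ((N : ℝ) + 1) * (C * Real.exp (E * K))) *
          (C * Real.exp (E * ((n - 2 * K : ℕ) : ℝ))) := by
      have j1 : (S.card : ℝ) * (FF d m (n - 2 * K)).card <
          (2 * ((N : ℝ) + 1) * (FF d m K).card) * (FF d m (n - 2 * K)).card :=
        mul_lt_mul_of_pos_right g7 (by linarith)
      refine lt_of_lt_of_le j1 ?_
      exact mul_le_mul (mul_le_mul_of_nonneg_left haK (by positivity)) haM (by positivity)
        (by positivity)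
    linarith
  have haKn : 0 < (FF d m K).card := by
    have : (0 : ℝ) < ((FF d m K).card : ℝ) := by linarith
    exact_mod_cast this
  have hSne : S.Nonempty := by
    rw [← Finset.card_pos]
    refine lt_of_lt_of_le ?_ f2
    positivity
  have fib1 : ∀ x, (S.filter fun p => p.1 = x).card ≤ (FF d m K).card := by
    intro x
    refine Finset.card_le_card_of_injOn (fun p => p.2) ?_ ?_
    · intro p hp
      rw [Finset.mem_coe, Finset.mem_filter, hS, Finset.mem_filter, Finset.mem_product] at hp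
      rw [Finset.mem_coe]
      exact hp.1.1.2
    · intro p hp q hq hpq
      rw [Finset.mem_coe, Finset.mem_filter] at hp hq
      exact Prod.ext (hp.2.trans hq.2.symm) hpq
  have fib2 : ∀ y, (S.filter fun p => p.2 = y).card ≤ (FF d m K).card := by
    intro x
    refine Finset.card_le_card_of_injOn (fun p => p.1) ?_ ?_
    · intro p hp
      rw [Finset.mem_coe, Finset.mem_filter, hS, Finset.mem_filter, Finset.mem_product] at hp
      rw [Finset.mem_coe]
      exact hp.1.1.1
    · intro p hp q hq hpq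
      rw [Finset.mem_coe, Finset.mem_filter] at hp hq
      exact Prod.ext hpq (hp.2.trans hq.2.symm)
  obtain ⟨f, hf1, hf2⟩ := grd S (FF d m K).card fib1 fib2 hSne haKn (N + 1) f2
  have hfQ : ∀ c, c < N → Q ≤ (V (f c)).card := by
    intro c hc
    have := hf1 c (by omega)
    rw [hS, Finset.mem_filter] at this
    exact this.2
  obtain ⟨w0, -⟩ : (V (f 0)).Nonempty := by
    rw [← Finset.card_pos]
    have := hf1 0 (by omega)
    rw [hS, Finset.mem_filter] at this
    exact lt_of_lt_of_le hQ1 this.2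
  set pc : ℕ → ℕ → (Fin n → Fin d) := fun c k =>
    if hk : k < (V (f c)).card then ((V (f c)).equivFin.symm ⟨k, hk⟩ : Fin n → Fin d) else w0
    with hpc
  have hpcV : ∀ c k, c < N → k < Q → pc c k ∈ V (f c) := by
    intro c k hc hk
    have hk' : k < (V (f c)).card := lt_of_lt_of_le hk (hfQ c hc)
    rw [hpc]
    simp only [dif_pos hk']
    exact ((V (f c)).equivFin.symm ⟨k, hk'⟩).2
  have hpre : ∀ c k, c < N → k < Q → pre h2K (pc c k) = (f c).1 := by
    intro c k hc hk
    have h1 := hpcV c k hc hk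
    rw [hV] at h1
    exact congrArg Prod.fst (Finset.mem_filter.1 h1).2
  have hsuf : ∀ c k, c < N → k < Q → suf h2K (pc c k) = (f c).2 := by
    intro c k hc hk
    have h1 := hpcV c k hc hk
    rw [hV] at h1
    exact congrArg Prod.snd (Finset.mem_filter.1 h1).2
  have hinj : ∀ c k k', c < N → k < Q → k' < Q → pc c k = pc c k' → k = k' := by
    intro c k k' hc hk hk' h
    have hk1 : k < (V (f c)).card := lt_of_lt_of_le hk (hfQ c hc)
    have hk1' : k' < (V (f c)).card := lt_of_lt_of_le hk' (hfQ c hc)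
    rw [hpc] at h
    simp only [dif_pos hk1, dif_pos hk1'] at h
    have h2 := (V (f c)).equivFin.symm.injective (Subtype.ext h)
    exact Fin.mk.inj h2
  refine ⟨Q, pc, Nat.le_ceil _, ⟨?_, ?_, ?_, ?_⟩⟩
  · intro c k hc hk
    have h1 := hpcV c k hc hk
    rw [hV] at h1
    exact (Finset.mem_filter.1 h1).1
  · intro c k c' k' hc hk hc' hk' h
    have h1 : c = c' := by
      refine hf2 c c' (by omega) (by omega) (Or.inl ?_)
      rw [← hpre c k hc hk, ← hpre c' k' hc' hk', h]
    subst h1
    exact ⟨rfl, hinj c k k' hc hk hk' h⟩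
  · intro c k c' k' hc hk hc' hk' h
    refine hf2 c c' (by omega) (by omega) (Or.inl ?_)
    rw [← hpre c k hc hk, ← hpre c' k' hc' hk']
    funext x
    exact h (0 + (x : ℕ)) (by omega) (by omega)
  · intro c k c' k' hc hk hc' hk' h
    refine hf2 c c' (by omega) (by omega) (Or.inr ?_)
    rw [← hsuf c k hc hk, ← hsuf c' k' hc' hk']
    funext x
    exact h (n - K + (x : ℕ)) (by omega) (by omega)

end Pool.Agent.H50.PG
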