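import Pool.Agent.H93.PG.Targets

/-!
Rows GRW, TRA of the board pgs_modules, and a selection lemma (for COL).
-/

set_option autoImplicit false

open MeasureTheory Filter Topology Finset Pool.Agent.H93.PF Pool.Agent.H93.PG

namespace Pool.Agent.H50.PG

/-- selection of pairs with different first and second coordinates -/
theorem grd {α β : Type} [DecidableEq α] [DecidableEq β] (S : Finset (α × β))
    (a : ℕ) (h1 : ∀ x, (S.filter fun p => p.1 = x).card ≤ a)
    (h2 : ∀ y, (S.filter fun p => p.2 = y).card ≤ a) (hne : S.Nonempty) (ha : 0 < a) (N : ℕ)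
    (hN : 2 * N * a ≤ S.card) :
    ∃ f : ℕ → α × β, (∀ i, i < N → f i ∈ S) ∧
      ∀ i j, i < N → j < N → ((f i).1 = (f j).1 ∨ (f i).2 = (f j).2) → i = j := by
  induction N with
  | zero =>
    obtain ⟨p, -⟩ := hne
    exact ⟨fun _ => p, fun i hi => absurd hi (by omega), fun i j hi => absurd hi (by omega)⟩
  | succ N ih =>
    obtain ⟨f, hf1, hf2⟩ := ih (le_trans (by nlinarith) hN)
    have hbad : ((Finset.range N).biUnion (fun i => (S.filter fun p => p.1 = (f i).1) ∪
        (S.filter fun p => p.2 = (f i).2))).card ≤ 2 * N * a := by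
      refine Finset.card_biUnion_le.trans ?_
      calc ∑ i ∈ Finset.range N, ((S.filter fun p => p.1 = (f i).1) ∪
            (S.filter fun p => p.2 = (f i).2)).card
          ≤ ∑ _i ∈ Finset.range N, 2 * a := by
            refine Finset.sum_le_sum fun i _ => ?_
            refine (Finset.card_union_le _ _).trans ?_
            have := h1 (f i).1
            have := h2 (f i).2
            omega
        _ = 2 * N * a := by rw [Finset.sum_const, Finset.card_range, smul_eq_mul]; ring
    have hlt : ((Finset.range N).biUnion (fun i => (S.filter fun p => p.1 = (f i).1) ∪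
        (S.filter fun p => p.2 = (f i).2))).card < S.card := by
      refine lt_of_le_of_lt hbad (lt_of_lt_of_le ?_ hN)
      nlinarith
    obtain ⟨p, hp, hpn⟩ := Finset.exists_mem_notMem_of_card_lt_card hlt
    have hnew : ∀ i, i < N → p.1 ≠ (f i).1 ∧ p.2 ≠ (f i).2 := by
      intro i hi
      constructor
      · intro h
        exact hpn (Finset.mem_biUnion.2 ⟨i, Finset.mem_range.2 hi,
          Finset.mem_union_left _ (Finset.mem_filter.2 ⟨hp, h⟩)⟩)
      · intro h
        exact hpn (Finset.mem_biUnion.2 ⟨i, Finset.mem_range.2 hi,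
          Finset.mem_union_right _ (Finset.mem_filter.2 ⟨hp, h⟩)⟩)
    refine ⟨fun i => if i = N then p else f i, ?_, ?_⟩
    · intro i hi
      by_cases h : i = N
      · simp only [if_pos h]
        exact hp
      · simp only [if_neg h]
        exact hf1 i (by omega)
    · intro i j hi hj hij
      by_cases hi' : i = N
      · by_cases hj' : j = N
        · rw [hi', hj']
        · simp only [if_pos hi', if_neg hj'] at hij
          obtain ⟨e1, e2⟩ := hnew j (by omega)
          rcases hij with h | h
          · exact absurd h e1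
          · exact absurd h e2
      · by_cases hj' : j = N
        · simp only [if_neg hi', if_pos hj'] at hij
          obtain ⟨e1, e2⟩ := hnew i (by omega)
          rcases hij with h | h
          · exact absurd h.symm e1
          · exact absurd h.symm e2
        · simp only [if_neg hi', if_neg hj'] at hij
          exact hf2 i j (by omega) (by omega) hij

theorem pf_GRW (hSUB : T_SUB) (hSPL : T_SPL) : T_GRW := by
  intro d m h1
  have hsub : ∀ i j, ((FF d m (i + j)).card : ℝ) ≤ ((FF d m i).card : ℝ) * (FF d m j).card := by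
    intro i j
    have h := hSPL d m i 0 j Finset.univ
    have e1 : ((FF d m (i + 0 + j)).filter fun w =>
        (fun x : Fin 0 => w ⟨i + x, by omega⟩) ∈ (Finset.univ : Finset (Fin 0 → Fin d))) =
        FF d m (i + 0 + j) := by
      rw [Finset.filter_eq_self]
      intro w _
      exact Finset.mem_univ _
    rw [e1] at h
    have e2 : (Finset.univ : Finset (Fin 0 → Fin d)).card = 1 := by
      rw [Finset.card_univ, Fintype.card_eq_one_iff]
      exact ⟨fun x => x.elim0, fun y => funext fun x => x.elim0⟩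
    rw [e2, mul_one] at h
    have h' : (FF d m (i + j)).card ≤ (FF d m i).card * (FF d m j).card := h
    exact_mod_cast h'
  obtain ⟨H, hH0, hH1, hH2⟩ := hSUB (fun n => ((FF d m n).card : ℝ))
    (fun n => by exact_mod_cast h1 n) hsub
  refine ⟨H, ⟨hH1, hH2⟩, ?_⟩
  intro h hh
  by_contra hlt
  push Not at hlt
  obtain ⟨C, hC⟩ := hH2 ((h - H) / 2) (by linarith)
  have key : ∀ n : ℕ, (h - H) / 2 * n < C := by
    intro n
    have e1 := (hh n).trans (hC n)
    have e2 : Real.exp (h * n) = Real.exp ((h - H) / 2 * n) * Real.exp ((H + (h - H) / 2) * n) := by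
      rw [← Real.exp_add]
      ring_nf
    rw [e2] at e1
    have e3 := le_of_mul_le_mul_right e1 (Real.exp_pos _)
    have e4 := Real.add_one_le_exp ((h - H) / 2 * n)
    linarith
  obtain ⟨n, hn⟩ := exists_nat_gt (C / ((h - H) / 2))
  rw [div_lt_iff₀ (by linarith)] at hn
  have := key n
  linarith

theorem pf_TRA : T_TRA := by
  intro A G C γ hγ hA0 hA1 hG hrec
  set c : ℕ → ℝ := fun r => (r : ℝ) * Real.exp (-γ * r) with hc
  have hcs : Summable c := by
    have h := Real.summable_pow_mul_exp_neg_nat_mul 1 hγ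
    simpa [hc, pow_one] using h
  have hc0 : ∀ r, 0 ≤ c r := fun r => by rw [hc]; positivity
  set S : ℝ := ∑' r, c r with hS
  have hS0 : 0 ≤ S := tsum_nonneg hc0
  have hfin : ∀ s : Finset ℕ, ∑ r ∈ s, c r ≤ S := fun s =>
    hcs.sum_le_tsum s (fun i _ => hc0 i)
  obtain ⟨J, hJ⟩ : ∃ J : ℕ, ∀ n, ∑ r ∈ Icc (J + 2) n, c r ≤ 1 / 2 := by
    have ht := hcs.hasSum.tendsto_sum_nat
    have hev : ∀ᶠ n in atTop, S - 1 / 2 < ∑ i ∈ Finset.range n, c i :=
      ht.eventually (lt_mem_nhds (by linarith))
    obtain ⟨J, hJ⟩ := eventually_atTop.1 hev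
    refine ⟨J, ?_⟩
    intro n
    have h1 := hJ (J + 2) (by omega)
    have hd : Disjoint (Finset.range (J + 2)) (Icc (J + 2) n) := by
      rw [Finset.disjoint_left]
      intro x hx hy
      rw [Finset.mem_range] at hx
      rw [Finset.mem_Icc] at hy
      omega
    have h2 := hfin (Finset.range (J + 2) ∪ Icc (J + 2) n)
    rw [Finset.sum_union hd] at h2
    linarith
  set D : ℝ := max C 0 with hD
  have hD0 : 0 ≤ D := le_max_right _ _
  have hG' : ∀ n : ℕ, G n ≤ D * Real.exp (γ * n) := fun n =>
    (hG n).trans (mul_le_mul_of_nonneg_right (le_max_left _ _) (Real.exp_pos _).le)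
  have hexp : ∀ n r : ℕ, r ≤ n → ∀ E : ℝ, (r : ℝ) * (E * Real.exp (γ * ((n - r : ℕ) : ℝ))) =
      E * c r * Real.exp (γ * n) := by
    intro n r hr E
    rw [hc]
    simp only []
    rw [Nat.cast_sub hr]
    have : γ * ((n : ℝ) - r) = -γ * r + γ * n := by ring
    rw [this, Real.exp_add]
    ring
  -- a general step
  have hstep : ∀ (n j : ℕ) (E : ℝ), (∀ r ∈ Icc (j + 2) n, A (n - r) (j + 1) ≤
      E * Real.exp (γ * ((n - r : ℕ) : ℝ))) →
      A n j ≤ D * Real.exp (γ * n) + E * (∑ r ∈ Icc (j + 2) n, c r) * Real.exp (γ * n) := by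
    intro n j E hE
    refine (hrec n j).trans (add_le_add (hG' n) ?_)
    rw [Finset.mul_sum, Finset.sum_mul]
    refine Finset.sum_le_sum fun r hr => ?_
    rw [← hexp n r (Finset.mem_Icc.1 hr).2 E]
    exact mul_le_mul_of_nonneg_left (hE r hr) (Nat.cast_nonneg r)
  have hJn : ∀ n, A n J ≤ 2 * D * Real.exp (γ * n) := by
    intro n
    induction n using Nat.strong_induction_on with
    | _ n ih =>
      have h1 := hstep n J (2 * D) (fun r hr => by
        have hr' := Finset.mem_Icc.1 hr
        exact (hA1 (n - r) J).trans (ih (n - r) (by omega)))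
      have h2 := hJ n
      have h3 : 2 * D * (∑ r ∈ Icc (J + 2) n, c r) ≤ 2 * D * (1 / 2) :=
        mul_le_mul_of_nonneg_left h2 (by linarith)
      have h4 := mul_le_mul_of_nonneg_right h3 (Real.exp_pos (γ * n)).le
      linarith
  have hall : ∀ i, i ≤ J → ∃ E : ℝ, 0 ≤ E ∧ ∀ n : ℕ, A n (J - i) ≤ E * Real.exp (γ * n) := by
    intro i
    induction i with
    | zero => intro _; exact ⟨2 * D, by linarith, hJn⟩
    | succ i ih =>
      intro hi
      obtain ⟨E, hE0, hE⟩ := ih (by omega)
      refine ⟨D + E * S, by positivity, ?_⟩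
      intro n
      have e1 : J - (i + 1) + 1 = J - i := by omega
      have h1 := hstep n (J - (i + 1)) E (fun r _ => by rw [e1]; exact hE (n - r))
      have h2 : E * (∑ r ∈ Icc (J - (i + 1) + 2) n, c r) ≤ E * S :=
        mul_le_mul_of_nonneg_left (hfin _) hE0
      have h3 := mul_le_mul_of_nonneg_right h2 (Real.exp_pos (γ * n)).le
      linarith
  obtain ⟨E, -, hE⟩ := hall J le_rfl
  rw [Nat.sub_self] at hE
  exact ⟨E, hE⟩

end Pool.Agent.H50.PG
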